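import Pool.Agent.V5helper37.RF.Inv
import Pool.Agent.V5helper37.RF.MC5

/-!
# The residual finiteness growth of a nilpotent group depends only on its complex Mal'cev completion
-/

set_option autoImplicit false

namespace Pool.Agent.Results.MP_67ef3c_al.ComplexMalcevRF

open Pool.Agent.TH91.RF

/-- Let `G₁`, `G₂` be finitely generated torsion-free nilpotent groups, with finite generating sets
`S₁`, `S₂`.  Rational Mal'cev completions of `G₁` and `G₂` exist, and if the complexified Lie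
algebras of such completions are isomorphic, then the residual finiteness growth functions of
`G₁` and `G₂` are equivalent. -/
theorem result (G₁ G₂ : Type) [Group G₁] [Group G₂] [Group.IsNilpotent G₁] [Group.IsNilpotent G₂]
    (tf₁ : ∀ g : G₁, g ≠ 1 → ¬ IsOfFinOrder g) (tf₂ : ∀ g : G₂, g ≠ 1 → ¬ IsOfFinOrder g)
    (S₁ : Set G₁) (S₂ : Set G₂) (h₁ : S₁.Finite) (h₂ : S₂.Finite)
    (hS₁ : Subgroup.closure S₁ = ⊤) (hS₂ : Subgroup.closure S₂ = ⊤) :
    (Nonempty (MalcevCompletion G₁) ∧ Nonempty (MalcevCompletion G₂)) ∧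
    ∀ (c₁ : MalcevCompletion G₁) (c₂ : MalcevCompletion G₂),
      Nonempty (c₁.CLie ≃ₗ⁅ℂ⁆ c₂.CLie) → GrowthEquiv (rfGrowth S₁) (rfGrowth S₂) := by
  have key : ∀ (G : Type) [Group G] [Group.IsNilpotent G] (_ : ∀ g : G, g ≠ 1 → ¬ IsOfFinOrder g)
      (S : Set G) (_ : S.Finite) (_ : Subgroup.closure S = ⊤), Nonempty (MalcevCompletion G) := by
    intro G _ _ tf S h hS
    refine Pool.Agent.V5helper37.RF.exists_completion G (Group.fg_iff.2 ⟨S, hS, h⟩) ?_
    intro x m hm hx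
    by_contra hx1
    exact tf x hx1 (isOfFinOrder_iff_pow_eq_one.2 ⟨m, Nat.pos_of_ne_zero hm, hx⟩)
  refine ⟨⟨key G₁ tf₁ S₁ h₁ hS₁, key G₂ tf₂ S₂ h₂ hS₂⟩, ?_⟩
  rintro c₁ c₂ ⟨φ⟩
  exact Pool.Agent.V5helper37.RF.invariance c₁ c₂ φ h₁ h₂ hS₁ hS₂

end Pool.Agent.Results.MP_67ef3c_al.ComplexMalcevRF
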